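import Mathlib

namespace Pool.Agent.Results.MP_408802_co.Q1

open Finset Classical

/-- `O` chooses exactly one direction for every edge of `E`. -/
def IsOrientation {V : Type} (E : SimpleGraph V) (O : V → V → Prop) : Prop :=
  (∀ u v, O u v → E.Adj u v) ∧ ∀ u v, E.Adj u v → (O u v ↔ ¬ O v u)

/-- The weighted reachability `R`, where `step u v` says that one may move from `u` to `v`. -/
noncomputable def R {V : Type} [Fintype V] (step : V → V → Prop) (w : V → ℕ) : ℕ :=
  2 * ∑ v, (w v).choose 2 +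
    ∑ p ∈ univ.filter (fun p : V × V => p.1 ≠ p.2),
      w p.1 * w p.2 * (if Relation.ReflTransGen step p.1 p.2 then 1 else 0)

lemma orth {Ω : Type} [Fintype Ω] {k : ℕ} (f : Fin k → Ω → ℝ) (h1 : ∀ i ω, f i ω ^ 2 ≤ 1)
    (h2 : ∀ i j, i < j → ∃ σ : Ω → Ω, Function.Involutive σ ∧
      ∀ ω, f i (σ ω) * f j (σ ω) = -(f i ω * f j ω)) :
    ∑ ω, (∑ i, f i ω) ^ 2 ≤ k * Fintype.card Ω := by
  have h3 : ∀ i j, i < j → ∑ ω, f i ω * f j ω = 0 := by
    intro i j hij
    obtain ⟨σ, hσ, h⟩ := h2 i j hij
    have := Equiv.sum_comp hσ.toPerm (fun ω => f i ω * f j ω)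
    simp only [Function.Involutive.coe_toPerm, h, sum_neg_distrib] at this
    linarith
  simp only [sq, sum_mul_sum]
  rw [sum_comm]
  calc _ ≤ ∑ _i : Fin k, (Fintype.card Ω : ℝ) := by
        apply sum_le_sum
        intro i _
        rw [sum_comm, sum_eq_single i]
        · calc _ ≤ ∑ _ω : Ω, (1 : ℝ) := sum_le_sum fun ω _ => by have := h1 i ω; rwa [sq] at this
            _ = _ := by simp
        · intro j _ hj
          rcases lt_or_gt_of_ne hj with h | h
          · rw [← h3 j i h]; exact sum_congr rfl fun ω _ => mul_comm _ _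
          · exact h3 i j h
        · simp
    _ = _ := by simp

abbrev B (k : ℕ) := Fin k → Bool
abbrev V (k : ℕ) := Fin (k + 2) × B k

def fl {k : ℕ} (i : Fin k) (z : B k) : B k := Function.update z i (!z i)

lemma fl_fl {k : ℕ} (i : Fin k) (z : B k) : fl i (fl i z) = z := by simp [fl]

lemma fl_apply {k : ℕ} (i j : Fin k) (z : B k) : fl i z j = if j = i then !z j else z j := by
  unfold fl; split_ifs with h
  · subst h; simp
  · simp [h]

def arc {k : ℕ} (u v : V k) : Prop := v.1.1 = u.1.1 + 1 ∧ v.2 = u.2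

def E (k : ℕ) : SimpleGraph (V k) where
  Adj u v := u.1 = v.1 ∧ ∃ i : Fin k, u.1.1 = i.1 + 1 ∧ v.2 = fl i u.2
  symm := ⟨by
    rintro u v ⟨h, i, h1, h2⟩
    exact ⟨h.symm, i, h ▸ h1, by rw [h2, fl_fl]⟩⟩
  loopless := ⟨by
    rintro u ⟨_, i, _, h⟩
    have := congrFun h i
    simp [fl] at this⟩

def w {k : ℕ} (u : V k) : ℕ := if u.1.1 = 0 ∨ u.1.1 = k + 1 then 1 else 0

def mix {k : ℕ} (j : ℕ) (x y : B k) : B k := fun i => if i.1 < j then y i else x i

def lv {k : ℕ} (i : Fin k) : Fin (k + 2) := ⟨i.1 + 1, by omega⟩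

lemma mix_succ {k : ℕ} (i : Fin k) (x y : B k) :
    mix (i.1 + 1) x y = if y i = x i then mix i.1 x y else fl i (mix i.1 x y) := by
  funext j
  by_cases e : j = i
  · subst e
    split_ifs with h
    · simp [mix, h]
    · simp only [mix, fl_apply]; simp; revert h; cases x j <;> cases y j <;> simp
  · have : j.1 ≠ i.1 := fun h => e (Fin.ext h)
    have h2 : j.1 < i.1 + 1 ↔ j.1 < i.1 := by omega
    split_ifs <;> simp [mix, fl_apply, e, h2]

lemma reach_all {k : ℕ} (x y : B k) : ∀ j (hj : j ≤ k), Relation.ReflTransGen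
    (fun u v => arc u v ∨ (E k).Adj u v) ((0 : Fin (k + 2)), x) (⟨j, by omega⟩, mix j x y)
  | 0, _ => by
    have : mix 0 x y = x := by funext i; simp [mix]
    rw [this]; exact .refl
  | j + 1, hj => by
    have h1 := (reach_all x y j (by omega)).tail (c := (⟨j + 1, by omega⟩, mix j x y))
      (Or.inl ⟨rfl, rfl⟩)
    rw [mix_succ ⟨j, hj⟩]
    split_ifs
    · exact h1
    · exact h1.tail (Or.inr ⟨rfl, ⟨j, hj⟩, rfl, rfl⟩)

def T {k : ℕ} (O : V k → V k → Prop) (i : Fin k) (x y : B k) : Prop :=
  O (lv i, mix i.1 x y) (lv i, fl i (mix i.1 x y))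

lemma inv {k : ℕ} {O : V k → V k → Prop} (hO : IsOrientation (E k) O) (x : B k) (v : V k)
    (h : Relation.ReflTransGen (fun u v => arc u v ∨ O u v) ((0 : Fin (k + 2)), x) v) :
    (∀ i : Fin k, v.1.1 ≤ i.1 → v.2 i = x i) ∧ ∀ i : Fin k, v.2 i ≠ x i → T O i x v.2 := by
  induction h with
  | refl => exact ⟨fun _ _ => rfl, fun i h => absurd rfl h⟩
  | @tail u v _ h ih =>
    rcases h with ⟨h1, h2⟩ | h
    · rw [h2]; exact ⟨fun i hi => ih.1 i (by omega), ih.2⟩
    · obtain ⟨h1, i0, h2, h3⟩ := hO.1 _ _ h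
      have key : ∀ i : Fin k, i0.1 < i.1 → v.2 i = x i := fun i hi => by
        rw [h3, fl_apply, if_neg (fun e => by rw [e] at hi; omega)]
        exact ih.1 i (by omega)
      refine ⟨fun i hi => key i (by rw [← h1] at hi; omega), fun i hi => ?_⟩
      have hm : i.1 ≤ i0.1 → mix i.1 x v.2 = mix i.1 x u.2 := fun hle => by
        funext j
        simp only [mix]
        split_ifs with hj
        · rw [h3, fl_apply, if_neg (fun e => by rw [e] at hj; omega)]
        · rfl
      rcases lt_trichotomy i.1 i0.1 with hlt | heq | hgt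
      · unfold T
        rw [hm hlt.le]
        apply ih.2 i
        rwa [h3, fl_apply, if_neg (fun e => by rw [e] at hlt; omega)] at hi
      · have e : i = i0 := Fin.ext heq
        subst e
        have hu : mix i.1 x u.2 = u.2 := by
          funext j
          simp only [mix]
          split_ifs with hj
          · rfl
          · by_cases e : j = i
            · subst e
              rw [h3, fl_apply, if_pos rfl] at hi
              revert hi; cases x j <;> cases u.2 j <;> simp
            · exact (ih.1 j (by have : j.1 ≠ i.1 := fun h => e (Fin.ext h); omega)).symm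
        unfold T
        rw [hm le_rfl, hu, ← h3]
        have e1 : lv i = u.1 := Fin.ext h2.symm
        convert h using 1
        · rw [e1]
        · rw [e1, h1]
      · exact absurd (key i hgt) hi

lemma good_le {k : ℕ} {O : V k → V k → Prop} (hO : IsOrientation (E k) O) :
    (k : ℝ) ^ 2 * (univ.filter (fun p : B k × B k => ∀ i, p.2 i ≠ p.1 i → T O i p.1 p.2)).card ≤
      10 * (k * Fintype.card (B k × B k)) := by
  let a : Fin k → B k × B k → ℝ := fun i p => if T O i p.1 p.2 then -1 else 1
  let b : Fin k → B k × B k → ℝ := fun i p =>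
    if T O i p.1 p.2 then 0 else if p.2 i = p.1 i then -1 else 1
  have ha := orth a (fun i p => by simp only [a]; split_ifs <;> norm_num) (fun i j hij => by
    refine ⟨fun p => (fl i p.1, p.2), fun p => by simp [fl_fl], fun p => ?_⟩
    have e1 : mix j.1 (fl i p.1) p.2 = mix j.1 p.1 p.2 := by
      funext l
      simp only [mix]
      split_ifs with h
      · rfl
      · rw [fl_apply, if_neg (fun e => by rw [e] at h; exact h hij)]
    have e2 : mix i.1 (fl i p.1) p.2 = fl i (mix i.1 p.1 p.2) := by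
      funext l
      simp only [mix, fl_apply]
      by_cases e : l = i
      · simp [e]
      · simp [e]
    have e3 := hO.2 (lv i, mix i.1 p.1 p.2) (lv i, fl i (mix i.1 p.1 p.2)) ⟨rfl, i, rfl, rfl⟩
    simp only [a, T, e1, e2, fl_fl, e3]
    split_ifs <;> simp_all)
  have hb := orth b (fun i p => by simp only [b]; split_ifs <;> norm_num) (fun i j hij => by
    refine ⟨fun p => (p.1, fl j p.2), fun p => by simp [fl_fl], fun p => ?_⟩
    have e1 : ∀ l : Fin k, l ≤ j → mix l.1 p.1 (fl j p.2) = mix l.1 p.1 p.2 := by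
      intro l hl
      funext m
      simp only [mix]
      split_ifs with h
      · rw [fl_apply, if_neg (fun e => by rw [e] at h; exact absurd hl (not_le.2 h))]
      · rfl
    simp only [b, T, e1 i hij.le, e1 j le_rfl, fl_apply, if_neg hij.ne, if_true]
    cases p.1 j <;> cases p.2 j <;> split_ifs <;> simp_all)
  calc _ = ∑ p ∈ univ.filter (fun p : B k × B k => ∀ i, p.2 i ≠ p.1 i → T O i p.1 p.2),
        (∑ i, a i p + 2 * ∑ i, b i p) ^ 2 := by
        rw [sum_congr rfl (g := fun _ => (k : ℝ) ^ 2), sum_const, nsmul_eq_mul, mul_comm]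
        intro p hp
        have hp := (mem_filter.1 hp).2
        rw [mul_sum, ← sum_add_distrib, sum_congr rfl (g := fun _ => (-1 : ℝ))]
        · simp
        · intro i _
          simp only [a, b]
          split_ifs with h1 h2
          · norm_num
          · norm_num
          · exact absurd (hp i h2) h1
    _ ≤ ∑ p, (∑ i, a i p + 2 * ∑ i, b i p) ^ 2 :=
        sum_le_sum_of_subset_of_nonneg (filter_subset _ _) fun _ _ _ => sq_nonneg _
    _ ≤ ∑ p, (2 * (∑ i, a i p) ^ 2 + 8 * (∑ i, b i p) ^ 2) :=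
        sum_le_sum fun p _ => by nlinarith [sq_nonneg (∑ i, a i p - 2 * ∑ i, b i p)]
    _ ≤ _ := by rw [sum_add_distrib, ← mul_sum, ← mul_sum]; linarith

lemma w_choose {k : ℕ} : ∑ v : V k, (w v).choose 2 = 0 :=
  sum_eq_zero fun v _ => by unfold w; split_ifs <;> rfl

def emb (k : ℕ) (p : B k × B k) : V k × V k := ((0, p.1), (Fin.last (k + 1), p.2))

lemma emb_inj (k : ℕ) : Function.Injective (emb k) := fun p q h => by
  simp only [emb, Prod.mk.injEq, true_and] at h
  exact Prod.ext h.1 h.2

lemma lower (k : ℕ) :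
    Fintype.card (B k × B k) ≤ R (fun u v => arc u v ∨ (E k).Adj u v) (w (k := k)) := by
  unfold R
  rw [w_choose, mul_zero, zero_add, ← card_univ, ← card_image_of_injective _ (emb_inj k),
    card_eq_sum_ones]
  refine le_trans (sum_le_sum fun p hp => ?_) (sum_le_sum_of_subset fun p hp => ?_)
  · obtain ⟨q, _, rfl⟩ := mem_image.1 hp
    have h := (reach_all q.1 q.2 k le_rfl).tail (c := (Fin.last (k + 1), q.2))
      (Or.inl ⟨rfl, by funext i; simp [mix]⟩)
    simp [emb, w, h]
  · obtain ⟨q, _, rfl⟩ := mem_image.1 hp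
    simp [emb, Fin.ext_iff]

lemma upper {k : ℕ} {O : V k → V k → Prop} (hO : IsOrientation (E k) O) :
    R (fun u v => arc u v ∨ O u v) (w (k := k)) ≤
      (univ.filter (fun p : B k × B k => ∀ i, p.2 i ≠ p.1 i → T O i p.1 p.2)).card := by
  unfold R
  rw [w_choose, mul_zero, zero_add, ← card_image_of_injective _ (emb_inj k), card_eq_sum_ones]
  refine le_trans (sum_le_sum_of_ne_zero fun p hp h => ?_) (sum_le_sum fun p _ => ?_)
  · obtain ⟨⟨a, x⟩, ⟨c, y⟩⟩ := p
    have hne : (a, x) ≠ (c, y) := by simpa only [mem_filter, mem_univ, true_and] using hp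
    simp only [w, ne_eq, mul_eq_zero, ite_eq_right_iff, one_ne_zero, imp_false, not_or,
      not_not] at h
    obtain ⟨⟨h1, h2⟩, h3⟩ := h
    have ha : a = 0 := by
      by_contra ha
      have ha' : a.1 = k + 1 := by
        have : a.1 ≠ 0 := fun e => ha (Fin.ext e)
        omega
      rcases h3.cases_head with e | ⟨u, h4 | h4, _⟩
      · exact hne e
      · have := h4.1; have := u.1.2; simp only at *; omega
      · obtain ⟨_, i, h5, _⟩ := hO.1 _ _ h4
        have := i.2; simp only at *; omega
    subst ha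
    have hi := inv hO x (c, y) h3
    have hc : c = Fin.last (k + 1) := by
      by_contra hc
      have hc' : c.1 = 0 := by
        have : c.1 ≠ k + 1 := fun e => hc (Fin.ext e)
        omega
      apply hne
      rw [Prod.mk.injEq]
      exact ⟨Fin.ext hc'.symm, funext fun i => (hi.1 i (by simp only; omega)).symm⟩
    subst hc
    exact mem_image.2 ⟨(x, y), mem_filter.2 ⟨mem_univ _, hi.2⟩, rfl⟩
  · unfold w; split_ifs <;> simp

theorem result (α : ℝ) (hα : 0 < α) : ∃ (V : Type) (_ : Fintype V) (A : V → V → Prop)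
    (E : SimpleGraph V) (w : V → ℕ), (∀ v, ¬ A v v) ∧ ∀ O, IsOrientation E O →
      (R (fun u v => A u v ∨ O u v) w : ℝ) < α * R (fun u v => A u v ∨ E.Adj u v) w := by
  obtain ⟨k, hk⟩ := exists_nat_gt (10 / α)
  have hk0 : (0 : ℝ) < k := lt_trans (by positivity) hk
  refine ⟨V k, inferInstance, arc, E k, w, fun v h => by have := h.1; omega, fun O hO => ?_⟩
  have h1 : (Fintype.card (B k × B k) : ℝ) ≤ _ := Nat.cast_le.2 (lower k)
  have h2 : (_ : ℝ) ≤ _ := Nat.cast_le.2 (upper hO)
  have h3 := good_le hO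
  have h4 : (0 : ℝ) < Fintype.card (B k × B k) := Nat.cast_pos.2 Fintype.card_pos
  rw [div_lt_iff₀ hα] at hk
  generalize (Fintype.card (B k × B k) : ℝ) = N at *
  generalize ((univ.filter (fun p : B k × B k => ∀ i, p.2 i ≠ p.1 i → T O i p.1 p.2)).card : ℝ) = S
    at *
  have h5 : k * S ≤ 10 * N := by
    have : k * (k * S) ≤ k * (10 * N) := by nlinarith
    exact le_of_mul_le_mul_left this hk0
  have h6 : S < α * N := by
    have : k * S < k * (α * N) := by nlinarith
    exact lt_of_mul_lt_mul_left this hk0.le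
  nlinarith

end Pool.Agent.Results.MP_408802_co.Q1
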